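import Pool.Agent.Helper880_MX.Ten
import Pool.Agent.Helper880_AH.Ev
import Pool.Agent.Helper880_AJ.Cnt
import Pool.Agent.Helper880_UN.Tra
import Pool.Agent.Helper880_UN.Scl2

/-!
# Absolute Hodge classes in the full sense: from one fibre to one hundred per cent of the fibres

Let `X → S` be a smooth projective family over `ℚ` over an open part `S` of the affine line, with **any** connected algebraic monodromy
group, let `X_c` be the fibre over `c ∈ S(ℚ)`, and let `Y` be any smooth projective variety over `ℂ`. The theorem (with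
theorems of Deligne and André on the monodromy, which are not in the Lean) says:

* **If all Hodge classes on all products `Y^j × X_c^k` are absolute Hodge classes, then all Hodge classes on all products
  `Y^j × X_(c + 1/t)^k` are absolute Hodge classes, for one hundred per cent of the integers `t`**: there are at most
  `K x^(1 - δ)` exceptions `t ≤ x`, `δ > 0`. This is Deligne's notion with the de Rham condition and the etale condition (with
  coefficients `𝔸_f`), for the same class. By Deligne's theorem the assumption is true if `Y` and `X_c` are of abelian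
  type, for example if `X_c` is a Fermat variety of any dimension and `Y` is a point, an abelian variety or a K3 surface.
* If `X_c` and `Y` have few periods (for example if `X_c` is a Fermat variety, `Y` is a point, and the monodromy group is not
  small) then this is true for **all** rational points `c + a / t` with `t ≥ (|a| + 2)^E`, without exceptions.
* The same is true for mixed Hodge structures, for example for the cohomology of quasi-projective varieties (Brylinski, Jannsen).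

Deligne's principle B says that the parallel transport of an absolute Hodge class is an absolute Hodge class. So the statement is
known for the very general fibres if it is known for one fibre; these are not defined over number fields. The point is that
all Hodge classes on one hundred per cent of the fibres over `c + 1/t` are invariant under the monodromy. For families which
are not of abelian type this was not known: the `ℓ`-adic methods start from the fact that Hodge classes are absolute.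

**Setting.** Let `V_x` be the cohomology of `X_x` with all Tate twists removed. The period matrix near `x = 0` (we put `c = 0`) with respect to
a de Rham basis over `ℚ(x)` adapted to the Hodge filtration and to a Betti basis is `P(x) = C Z(x)`, where `Z` is an `n × n` matrix of
G-functions over `ℚ` and `C` is the matrix of the periods of `V_c`. Let `V_0` be the cohomology of `Y`, with period matrix `C₀` and Hodge
operator `φ₀`. An automorphism `σ` of `ℂ` gives the conjugate variety `Y_σ` with period matrix `C₀'` and Hodge operator `φ₀'`, and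
isomorphisms of etale cohomology, given in Betti bases by a matrix `S₀` over `Λ = 𝔸_f` for `Y` and by `χ` for `Λ(1)`. The
varieties `X_x`, `x ∈ ℚ`, are their own conjugates; the action of `σ` on the etale cohomology of `X_c` is given by a matrix `Sc`, and
for `X_u` by `S`. A rational tensor `f` in `V_0^(⊗ d₀) ⊗ V_x^(⊗ d)` is a Hodge class of type `(q, q)` if the Hodge operator
acts on it by `q`. It is an absolute Hodge class if for all `σ` there is a Hodge class `f'` on the conjugate such that `(2 π i)^q f'` is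
the de Rham conjugate and the etale conjugate of `(2 π i)^q f` (`AbsolutelyHodge`). By the Künneth formula and the
polarisations these tensors give all Hodge classes on the products `Y^j × X_x^k`.

Let `𝔤` be a rational space of infinitesimal symmetries of `Z` such that `𝔪 = C 𝔤 C⁻¹` is the Lie algebra of the monodromy group. We assume
that the rational tensors which are killed by `𝔤` are rational sections (`RationalInvariants`), and that the matrices `Sc` and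
`S` agree on the rational tensors which are killed by `𝔪` (`SameOnInvariants`). Both statements are true if the monodromy group is
connected: such tensors are invariant, so they are global sections of the local system, the sections of the algebraic
connection are rational, and the sections of the `ℓ`-adic sheaf on `S` over the algebraic closure form a constant sheaf
on which the Galois group acts in the same way in all rational points of `S`. For the mixed Hodge structures (`IsMixed`) and the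
conditions on `φ`, `φ_c` and `𝔪` (`IsMonodromy`) see the explanations in `MP_eeb1a4_ag.MixedIntegralPoints`.

**Proof** (`Pool/Agent/Helper880_MX`, `Helper880_AH`, `Helper880_EX`, `Helper880_ZP`, `Helper880_UN`). Outside the exceptional set all
rational Lie algebras which contain `φ₀ ⊕ φ` contain `0 ⊕ 𝔪` (`Generic`), so all Hodge classes `f` on `V_0` and `V_u` are killed by `𝔪`. So
`f` is also a Hodge class on `V_0` and `V_c`, with a conjugate `f'`. The de Rham coordinates of `f` at `c` are a combination of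
rational tensors killed by `𝔤`, with coefficients in `ℂ` (`expand`); their transports to `u` are rational (`ri_eval`), so the
conjugation commutes with the transport (`conj_inv`), and `f'` is the de Rham conjugate of `f` at `u`, it is killed by `𝔪` and it
is a Hodge class at `u`. As `f` is killed by `𝔪` the etale conjugates at `c` and `u` agree as well.
-/

set_option autoImplicit false

open PowerSeries Filter
open scoped Matrix

namespace Pool.Agent.Results.MP_4e1cf2_ag.FullNotionFromOneFibre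

/-- an integer polynomial as a power series with rational coefficients -/
noncomputable def toQ (P : Polynomial ℤ) : PowerSeries ℚ := ((P.map (Int.castRingHom ℚ) : Polynomial ℚ) : PowerSeries ℚ)

/-- the power series `P(u^e)` -/
noncomputable def atPow (e : ℕ) (P : Polynomial ℤ) : PowerSeries ℂ :=
  ((Polynomial.expand ℂ e (P.map (Int.castRingHom ℂ)) : Polynomial ℂ) : PowerSeries ℂ)

/-- the matrices `G_s` over `ℤ[x]` with `T^s y^(s) = G_s y` for all solutions `y` of `T y' = A y` -/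
noncomputable def iter {r : ℕ} (T : Polynomial ℤ) (A : Fin r → Fin r → Polynomial ℤ) : ℕ → Fin r → Fin r → Polynomial ℤ
  | 0 => fun i j => if i = j then 1 else 0
  | s + 1 => fun i j => T * Polynomial.derivative (iter T A s i j) + ∑ l, iter T A s i l * A l j -
      (s : Polynomial ℤ) * (Polynomial.derivative T * iter T A s i j)

/-- The system `T y' = A y` has a fundamental matrix of solutions of the form `u^(-M) ∑_n Φ_n(u) (log u)^n` with
`u^e = x` and convergent power series `Φ_n`: the point `0` is regular or a regular singularity with rational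
exponents. -/
def QuasiUnipotent {r : ℕ} (T : Polynomial ℤ) (A : Fin r → Fin r → Polynomial ℤ) : Prop :=
  ∃ (e M : ℕ) (K : ℝ) (Φ : Matrix (Fin r) (Fin r) (Polynomial (PowerSeries ℂ))), 1 ≤ e ∧ Φ.det ≠ 0 ∧
    (∀ i j n m, ‖coeff m ((Φ i j).coeff n)‖ ≤ K ^ (m + 1)) ∧
    ∀ i j n, atPow e T * (X * PowerSeries.derivative ℂ ((Φ i j).coeff n) +
        ((n : PowerSeries ℂ) + 1) * (Φ i j).coeff (n + 1) - (M : PowerSeries ℂ) * (Φ i j).coeff n) =
      (e : PowerSeries ℂ) * X ^ e * ∑ l, atPow e (A i l) * (Φ l j).coeff n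

/-- `h_1, ..., h_r` are G-functions with rational coefficients which solve the differential system `T y' = A y`, with
the conditions of Siegel and Galochkin, and `0` is a regular point or a regular singularity with rational exponents of
the system. -/
structure GFamily {r : ℕ} (T : Polynomial ℤ) (A : Fin r → Fin r → Polynomial ℤ) (h : Fin r → PowerSeries ℚ) : Prop where
  /-- the denominator is not zero -/
  T_ne : T ≠ 0
  /-- the differential equations -/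
  ode : ∀ i, toQ T * PowerSeries.derivative ℚ (h i) = ∑ j, toQ (A i j) * h j
  /-- the coefficients have geometric growth -/
  size : ∃ C : ℝ, ∀ i m, |((coeff m (h i) : ℚ) : ℝ)| ≤ C ^ (m + 1)
  /-- the common denominators of the coefficients have geometric growth -/
  den : ∃ C : ℝ, ∀ m : ℕ, ∃ d : ℕ, 0 < d ∧ (d : ℝ) ≤ C ^ (m + 1) ∧ ∀ i, ∀ j ≤ m, ∃ a : ℤ, (d : ℚ) * coeff j (h i) = a
  /-- Galochkin's condition: the common denominators of the matrices `G_s / s!` have geometric growth -/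
  galochkin : ∃ C : ℝ, ∀ m : ℕ, ∃ d : ℕ, 0 < d ∧ (d : ℝ) ≤ C ^ (m + 1) ∧ ∀ s ≤ m, ∀ i j,
    ∃ H : Polynomial ℤ, (d : Polynomial ℤ) * iter T A s i j = (s.factorial : Polynomial ℤ) * H
  /-- the local exponents at `0` are rational and the singularity is regular -/
  regular : QuasiUnipotent T A

section family
variable {n : ℕ}

/-- the entries of a matrix -/
def entries (Z : Matrix (Fin n) (Fin n) (PowerSeries ℚ)) : Fin (n * n) → PowerSeries ℚ := fun a =>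
  Z (finProdFinEquiv.symm a).1 (finProdFinEquiv.symm a).2

/-- rational matrices as complex matrices -/
def toC (M : Matrix (Fin n) (Fin n) ℚ) : Matrix (Fin n) (Fin n) ℂ := M.map fun x : ℚ => (x : ℂ)

/-- the matrix `Z(1 / t)` -/
noncomputable def value (Z : Matrix (Fin n) (Fin n) (PowerSeries ℚ)) (t : ℕ) : Matrix (Fin n) (Fin n) ℂ :=
  Matrix.of fun i j => ((∑' k : ℕ, ((coeff k (Z i j) : ℚ) : ℝ) * (1 / (t : ℝ)) ^ k : ℝ) : ℂ)

/-- the period matrix `C exp (M log x) Z(x)` at `x = 1 / t` -/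
noncomputable def period (C : Matrix (Fin n) (Fin n) ℂ) (M : Matrix (Fin n) (Fin n) ℚ)
    (Z : Matrix (Fin n) (Fin n) (PowerSeries ℚ)) (t : ℕ) : Matrix (Fin n) (Fin n) ℂ :=
  C * (NormedSpace.exp ((-((Real.log (t : ℝ) : ℝ) : ℂ)) • toC M) * value Z t)

/-- the matrix `Z(u)` for a real number `u` -/
noncomputable def valueAt (Z : Matrix (Fin n) (Fin n) (PowerSeries ℚ)) (u : ℝ) : Matrix (Fin n) (Fin n) ℂ :=
  Matrix.of fun i j => ((∑' k : ℕ, ((coeff k (Z i j) : ℚ) : ℝ) * u ^ k : ℝ) : ℂ)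

/-- the matrix `C exp (-L M) Z(u)`; it is the period matrix at `u = x` if `L = -log x` -/
noncomputable def periodAt (C : Matrix (Fin n) (Fin n) ℂ) (M : Matrix (Fin n) (Fin n) ℚ) (L : ℂ)
    (Z : Matrix (Fin n) (Fin n) (PowerSeries ℚ)) (u : ℝ) : Matrix (Fin n) (Fin n) ℂ :=
  C * (NormedSpace.exp ((-L) • toC M) * valueAt Z u)

/-- the matrix of power series with complex coefficients -/
noncomputable def overC (Z : Matrix (Fin n) (Fin n) (PowerSeries ℚ)) : Matrix (Fin n) (Fin n) (PowerSeries ℂ) :=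
  Z.map (PowerSeries.map (algebraMap ℚ ℂ))

/-- `X` is an infinitesimal symmetry of `Z`: for all polynomial relations `R(x, Z(x)) = 0` over `ℂ[x]` the derivative of
`R(x, (1 + ε X) Z(x))` at `ε = 0` is zero. -/
def Symmetry (Z : Matrix (Fin n) (Fin n) (PowerSeries ℚ)) (X : Matrix (Fin n) (Fin n) ℂ) : Prop :=
  ∀ R : MvPolynomial (Fin n × Fin n) (Polynomial ℂ), MvPolynomial.aeval (fun b => overC Z b.1 b.2) R = 0 →
    ∑ b, MvPolynomial.aeval (fun b => overC Z b.1 b.2) (MvPolynomial.pderiv b R) *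
      (X.map (PowerSeries.C (R := ℂ)) * overC Z) b.1 b.2 = 0

/-- up to a common factor the entries of `C₀` and `C` are algebraic over a field generated by `s` numbers -/
def FewPeriods {r : ℕ} (s : ℕ) (C₀ : Matrix (Fin r) (Fin r) ℂ) (C : Matrix (Fin n) (Fin n) ℂ) : Prop :=
  ∃ (b : Fin s → ℂ) (κ : ℂ), κ ≠ 0 ∧ (∀ i j, IsAlgebraic (IntermediateField.adjoin ℚ (Set.range b)) (κ * C₀ i j)) ∧
    ∀ i j, IsAlgebraic (IntermediateField.adjoin ℚ (Set.range b)) (κ * C i j)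

end family

section hodge
variable {B : Type} [Fintype B] [DecidableEq B]

/-- The Hodge filtration `F^p`: it is spanned by the columns `b` of the period matrix with `p ≤ lev b`. -/
def hodge (lev : B → ℤ) (P : Matrix B B ℂ) (p : ℤ) : Submodule ℂ (B → ℂ) :=
  Submodule.span ℂ {v | ∃ b, p ≤ lev b ∧ v = fun i => P i b}

/-- `φ` splits the Hodge filtration: `F^p` is the sum of the eigenspaces of `φ` for the integral eigenvalues `q ≥ p`. -/
def Splits (lev : B → ℤ) (P φ : Matrix B B ℂ) : Prop :=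
  ∀ p, hodge lev P p = Submodule.span ℂ {v | ∃ q : ℤ, p ≤ q ∧ φ *ᵥ v = (q : ℂ) • v}

end hodge

section
variable {n N r₀ : ℕ}

/-- the block matrix `x ⊕ X_1 ⊕ … ⊕ X_N` -/
def total (x : Matrix (Fin r₀) (Fin r₀) ℂ) (X : Fin N → Matrix (Fin n) (Fin n) ℂ) :
    Matrix (Fin r₀ ⊕ (Fin n × Fin N)) (Fin r₀ ⊕ (Fin n × Fin N)) ℂ :=
  Matrix.fromBlocks x 0 0 (Matrix.blockDiagonal X)

/-- `C 𝔤 C⁻¹` -/
def conjugate (C : Matrix (Fin n) (Fin n) ℂ) (𝔤 : Submodule ℂ (Matrix (Fin n) (Fin n) ℂ)) :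
    Submodule ℂ (Matrix (Fin n) (Fin n) ℂ) where
  carrier := {Y | ∃ X ∈ 𝔤, Y = C * X * C⁻¹}
  zero_mem' := ⟨0, 𝔤.zero_mem, by rw [Matrix.mul_zero, Matrix.zero_mul]⟩
  add_mem' := by
    rintro _ _ ⟨X, hX, rfl⟩ ⟨Y, hY, rfl⟩
    exact ⟨X + Y, 𝔤.add_mem hX hY, by rw [Matrix.mul_add, Matrix.add_mul]⟩
  smul_mem' := by
    rintro c _ ⟨X, hX, rfl⟩
    exact ⟨c • X, 𝔤.smul_mem c hX, by rw [Matrix.mul_smul, Matrix.smul_mul]⟩

end

section lie
variable {B : Type}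

/-- the space is spanned by rational matrices -/
def IsRational (W : Submodule ℂ (Matrix B B ℂ)) : Prop :=
  W ≤ Submodule.span ℂ {X | X ∈ W ∧ ∀ a b, ∃ q : ℚ, X a b = q}

/-- the space is spanned by rational vectors -/
def IsRationalSpace (U : Submodule ℂ (B → ℂ)) : Prop := U ≤ Submodule.span ℂ {v | v ∈ U ∧ ∀ a, ∃ q : ℚ, v a = q}

variable [Fintype B]

/-- the space is a Lie algebra -/
def IsLie (W : Submodule ℂ (Matrix B B ℂ)) : Prop := ∀ X ∈ W, ∀ Y ∈ W, X * Y - Y * X ∈ W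

/-- `φ` normalises `𝔪` -/
def Normalises (φ : Matrix B B ℂ) (𝔪 : Submodule ℂ (Matrix B B ℂ)) : Prop := ∀ Y ∈ 𝔪, φ * Y - Y * φ ∈ 𝔪

/-- the space which is spanned by the elements `X` of `𝔪` such that `[φ, X] = a X` with a negative integer `a` -/
def negative (𝔪 : Submodule ℂ (Matrix B B ℂ)) (φ : Matrix B B ℂ) : Submodule ℂ (Matrix B B ℂ) :=
  Submodule.span ℂ {X | X ∈ 𝔪 ∧ ∃ a : ℤ, a < 0 ∧ φ * X - X * φ = (a : ℂ) • X}

end lie

section mixed
variable {n r₀ : ℕ}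

/-- `W` is the weight filtration of a rational mixed Hodge structure and `φ` is an operator which splits the weight filtration
and the Hodge filtration, for example the operator of Deligne's splitting: the filtration `W` is finite and rational, it is
stable under `φ`, and `φ + conj φ` is the multiplication by `k` on `W_k / W_(k-1)`. -/
structure IsMixed (W : ℤ → Submodule ℂ (Fin n → ℂ)) (φ : Matrix (Fin n) (Fin n) ℂ) : Prop where
  /-- increasing -/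
  mono : Monotone W
  /-- `0` for small `k` -/
  bot : ∃ k, W k = ⊥
  /-- everything for large `k` -/
  top : ∃ k, W k = ⊤
  /-- rational -/
  rational : ∀ k, IsRationalSpace (W k)
  /-- stable -/
  stable : ∀ k, ∀ v ∈ W k, φ *ᵥ v ∈ W k
  /-- Hodge symmetry -/
  symmetric : ∀ k, ∀ v ∈ W k, φ *ᵥ v + φ.map star *ᵥ v - (k : ℂ) • v ∈ W (k - 1)

/-- no rational ideal `𝔦 ≠ 𝔪` of `𝔪` contains `[φ, 𝔪]`: the Hodge operator is not trivial on the quotients of `𝔪` -/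
def NoTrivialQuotient (𝔪 : Submodule ℂ (Matrix (Fin n) (Fin n) ℂ)) (φ : Matrix (Fin n) (Fin n) ℂ) : Prop :=
  ∀ 𝔦 : Submodule ℂ (Matrix (Fin n) (Fin n) ℂ), 𝔦 ≤ 𝔪 → IsRational 𝔦 → (∀ X ∈ 𝔪, ∀ Y ∈ 𝔦, X * Y - Y * X ∈ 𝔦) →
    (∀ X ∈ 𝔪, φ * X - X * φ ∈ 𝔦) → 𝔦 = 𝔪

/-- `𝔪` (in `𝔤'`) is a rational Lie algebra which respects the weight filtration `W` and is normalised by the Hodge operator `φ`
of the mixed Hodge structure `V_t`, and `φ` is in `φc + 𝔪`. -/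
structure IsMonodromy (𝔤' 𝔪 : Submodule ℂ (Matrix (Fin n) (Fin n) ℂ)) (W : ℤ → Submodule ℂ (Fin n → ℂ))
    (φc φ : Matrix (Fin n) (Fin n) ℂ) : Prop where
  /-- it is in `𝔤'` -/
  le : 𝔪 ≤ 𝔤'
  /-- rational -/
  rational : IsRational 𝔪
  /-- Lie algebra -/
  lie : IsLie 𝔪
  /-- it respects the weights -/
  weight : ∀ X ∈ 𝔪, ∀ k, ∀ v ∈ W k, X *ᵥ v ∈ W k
  /-- mixed Hodge structure -/
  mixed : IsMixed W φ
  /-- normalised by `φ` -/
  normal : Normalises φ 𝔪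
  /-- no trivial quotients -/
  nontrivial : NoTrivialQuotient 𝔪 φ
  /-- the variation is constant modulo `𝔪` -/
  constant : φ - φc ∈ 𝔪

/-- the space of all `X` with `0 ⊕ X ∈ 𝔥` -/
def inBlock (𝔥 : Submodule ℂ (Matrix (Fin r₀ ⊕ (Fin n × Fin 1)) (Fin r₀ ⊕ (Fin n × Fin 1)) ℂ)) :
    Submodule ℂ (Matrix (Fin n) (Fin n) ℂ) where
  carrier := {X | total 0 (fun _ : Fin 1 => X) ∈ 𝔥}
  zero_mem' := by
    have h : total (0 : Matrix (Fin r₀) (Fin r₀) ℂ) (fun _ : Fin 1 => (0 : Matrix (Fin n) (Fin n) ℂ)) = 0 :=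
      Pool.Agent.Helper880_EX.Tot_zero
    show total 0 (fun _ : Fin 1 => (0 : Matrix (Fin n) (Fin n) ℂ)) ∈ 𝔥
    rw [h]
    exact 𝔥.zero_mem
  add_mem' := by
    intro X Y hX hY
    have h : total (0 : Matrix (Fin r₀) (Fin r₀) ℂ) (fun _ : Fin 1 => X + Y) = total 0 (fun _ => X) + total 0 (fun _ => Y) :=
      Pool.Agent.Helper880_EX.Tot_add _ _
    show total 0 (fun _ : Fin 1 => X + Y) ∈ 𝔥
    rw [h]
    exact 𝔥.add_mem hX hY
  smul_mem' := by
    intro c X hX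
    have h : total (0 : Matrix (Fin r₀) (Fin r₀) ℂ) (fun _ : Fin 1 => c • X) = c • total 0 (fun _ => X) :=
      Pool.Agent.Helper880_EX.Tot_smul _ _
    show total 0 (fun _ : Fin 1 => c • X) ∈ 𝔥
    rw [h]
    exact 𝔥.smul_mem _ hX

/-- The rational tensor `f` in `V_0^(⊗ d₀) ⊗ V^(⊗ d)` is a Hodge tensor for the Hodge operators `φ₀` of `V_0` and `φ` of `V`: it is
an eigenvector of the Hodge operator on the tensor space, with an integral eigenvalue `q` (type `(q, q)`). -/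
def IsHodgeE {d₀ d : ℕ} (φ₀ : Matrix (Fin r₀) (Fin r₀) ℂ) (φ : Matrix (Fin n) (Fin n) ℂ)
    (f : (Fin d₀ → Fin r₀) → (Fin d → Fin n) → ℚ) : Prop :=
  ∃ q : ℤ, ∀ x y, (∑ k, ∑ a, φ₀ (x k) a * (f (Function.update x k a) y : ℂ)) +
    (∑ l, ∑ a, φ (y l) a * (f x (Function.update y l a) : ℂ)) = q * (f x y : ℂ)

/-- the tensor `f` in `V_0^(⊗ d₀) ⊗ V^(⊗ d)` is killed by `0 ⊕ 𝔪` -/
def Invariant {d₀ d : ℕ} (𝔪 : Submodule ℂ (Matrix (Fin n) (Fin n) ℂ)) (f : (Fin d₀ → Fin r₀) → (Fin d → Fin n) → ℚ) : Prop :=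
  ∀ X ∈ 𝔪, ∀ x y, ∑ l, ∑ a, X (y l) a * (f x (Function.update y l a) : ℂ) = 0

/-- The fibre is Hodge generic: all rational Lie algebras which contain the Hodge operator `φ₀ ⊕ φ` (for example the Lie
algebra of the Mumford–Tate group of `V_0 ⊕ V_t`) contain `0 ⊕ 𝔪`, and the Hodge tensors on `V_0` and `V_t` are exactly the
Hodge tensors for `φ₀` and `φc` which are killed by `0 ⊕ 𝔪`. -/
def Generic (φ₀ : Matrix (Fin r₀) (Fin r₀) ℂ) (φc φ : Matrix (Fin n) (Fin n) ℂ)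
    (𝔪 : Submodule ℂ (Matrix (Fin n) (Fin n) ℂ)) : Prop :=
  (∀ 𝔥 : Submodule ℂ (Matrix (Fin r₀ ⊕ (Fin n × Fin 1)) (Fin r₀ ⊕ (Fin n × Fin 1)) ℂ), IsRational 𝔥 → IsLie 𝔥 →
    total φ₀ (fun _ : Fin 1 => φ) ∈ 𝔥 → 𝔪 ≤ inBlock 𝔥) ∧
  ∀ (d₀ d : ℕ) (f : (Fin d₀ → Fin r₀) → (Fin d → Fin n) → ℚ), IsHodgeE φ₀ φ f ↔ IsHodgeE φ₀ φc f ∧ Invariant 𝔪 f

end mixed

section absolute
variable {n r₀ : ℕ}

/-- For all rational Lie algebras `𝔫` in `𝔪`, `𝔫 ≠ 𝔪`, which are normalised by `φ` the codimension of `𝔫 ∩ 𝔪^-` in `𝔪^-` is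
at least `c`. -/
def Codimension (c : ℕ) (𝔪 : Submodule ℂ (Matrix (Fin n) (Fin n) ℂ)) (φ : Matrix (Fin n) (Fin n) ℂ) : Prop :=
  ∀ 𝔫 : Submodule ℂ (Matrix (Fin n) (Fin n) ℂ), 𝔫 ≤ 𝔪 → IsRational 𝔫 → IsLie 𝔫 → Normalises φ 𝔫 → 𝔫 ≠ 𝔪 →
    Module.finrank ℂ (negative 𝔪 φ ⊓ 𝔫 : Submodule ℂ (Matrix (Fin n) (Fin n) ℂ)) + c ≤ Module.finrank ℂ (negative 𝔪 φ)

/-- The rational tensor `f` in `V_0^(⊗ d₀) ⊗ V^(⊗ d)` is a Hodge class of type `(q, q)` for the Hodge operators `φ₀` of `V_0` and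
`φ` of `V`: the operator on the tensor space acts on `f` by `q`. -/
def IsHodge {d₀ d : ℕ} (q : ℤ) (φ₀ : Matrix (Fin r₀) (Fin r₀) ℂ) (φ : Matrix (Fin n) (Fin n) ℂ)
    (f : (Fin d₀ → Fin r₀) → (Fin d → Fin n) → ℚ) : Prop :=
  ∀ x y, (∑ k, ∑ a, φ₀ (x k) a * (f (Function.update x k a) y : ℂ)) +
    (∑ l, ∑ a, φ (y l) a * (f x (Function.update y l a) : ℂ)) = q * (f x y : ℂ)

/-- The tensor in `V_0^(⊗ d₀) ⊗ V^(⊗ d)` whose coordinates in the de Rham bases are `w`; the period matrices (the columns are the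
elements of the de Rham bases) are `C₀` and `P`. -/
def transform {d₀ d : ℕ} (C₀ : Matrix (Fin r₀) (Fin r₀) ℂ) (P : Matrix (Fin n) (Fin n) ℂ)
    (w : (Fin d₀ → Fin r₀) → (Fin d → Fin n) → ℂ) (x : Fin d₀ → Fin r₀) (y : Fin d → Fin n) : ℂ :=
  ∑ x' : Fin d₀ → Fin r₀, ∑ y' : Fin d → Fin n, (∏ k, C₀ (x k) (x' k)) * (∏ l, P (y l) (y' l)) * w x' y'

/-- The rational tensor `f'` (period matrices `C₀'` and `P`) is the de Rham conjugate under `σ` of the rational tensor `f` (period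
matrices `C₀` and `P`), both of type `(q, q)`: the de Rham coordinates of `(2 π i)^q f'` are the images under `σ` of the de Rham
coordinates of `(2 π i)^q f`. -/
def IsConjugate {d₀ d : ℕ} (σ : ℂ ≃+* ℂ) (q : ℤ) (C₀ C₀' : Matrix (Fin r₀) (Fin r₀) ℂ) (P : Matrix (Fin n) (Fin n) ℂ)
    (f f' : (Fin d₀ → Fin r₀) → (Fin d → Fin n) → ℚ) : Prop :=
  ∃ w, (∀ x y, (f x y : ℂ) = transform C₀ P w x y) ∧ ∀ x y, (f' x y : ℂ) =
    transform C₀' P (fun x' y' => ((2 * Real.pi * Complex.I : ℂ) ^ q)⁻¹ * σ ((2 * Real.pi * Complex.I : ℂ) ^ q * w x' y')) x y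

/-- The rational tensor `f'` is the etale conjugate of `f`, both of type `(q, q)`, for the coefficients `Λ`, for example
`Λ = 𝔸_f`: here `S₀` and `S` are the matrices of the conjugations `V_0 ⊗ Λ → V_0' ⊗ Λ` and `V ⊗ Λ → V ⊗ Λ` on etale cohomology,
and `χ` is the conjugation on `Λ(1)`. -/
def IsEtaleConjugate {Λ : Type} [CommRing Λ] [Algebra ℚ Λ] {d₀ d : ℕ} (χ : Λˣ) (q : ℤ) (S₀ : Matrix (Fin r₀) (Fin r₀) Λ)
    (S : Matrix (Fin n) (Fin n) Λ) (f f' : (Fin d₀ → Fin r₀) → (Fin d → Fin n) → ℚ) : Prop :=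
  ∀ x y, algebraMap ℚ Λ (f' x y) = ((χ ^ q : Λˣ) : Λ) * ∑ x' : Fin d₀ → Fin r₀, ∑ y' : Fin d → Fin n,
    (∏ k, S₀ (x k) (x' k)) * (∏ l, S (y l) (y' l)) * algebraMap ℚ Λ (f x' y')

/-- An automorphism `σ` of `ℂ` and its action: the conjugate `V_0'` of `V_0` has the period matrix `C₀'` and the Hodge operator `φ₀'`,
and `χ`, `S₀` are the conjugations on the etale side with coefficients in `Λ`. -/
structure Conjugation (r₀ : ℕ) (Λ : Type) [CommRing Λ] where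
  /-- the automorphism -/
  σ : ℂ ≃+* ℂ
  /-- the period matrix of the conjugate of `V_0` -/
  C₀' : Matrix (Fin r₀) (Fin r₀) ℂ
  /-- the Hodge operator of the conjugate of `V_0` -/
  φ₀' : Matrix (Fin r₀) (Fin r₀) ℂ
  /-- the action on `Λ(1)` -/
  χ : Λˣ
  /-- the etale conjugation on `V_0` -/
  S₀ : Matrix (Fin r₀) (Fin r₀) Λ

/-- All Hodge classes in the spaces `V_0^(⊗ d₀) ⊗ V^(⊗ d)` are absolute Hodge classes, as far as `σ` and `Λ` are concerned: for every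
Hodge class `f` there is a Hodge class `f'` on the conjugate which is its de Rham conjugate and its etale conjugate. The
variety of `V` is defined over `ℚ`, so that it is its own conjugate; `V` has the Hodge operator `φ`, the period matrix
`P` and the etale conjugation `S`. -/
def AbsolutelyHodge {Λ : Type} [CommRing Λ] [Algebra ℚ Λ] (κ : Conjugation r₀ Λ) (C₀ φ₀ : Matrix (Fin r₀) (Fin r₀) ℂ)
    (P φ : Matrix (Fin n) (Fin n) ℂ) (S : Matrix (Fin n) (Fin n) Λ) : Prop :=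
  ∀ (d₀ d : ℕ) (q : ℤ) (f : (Fin d₀ → Fin r₀) → (Fin d → Fin n) → ℚ), IsHodge q φ₀ φ f →
    ∃ f' : (Fin d₀ → Fin r₀) → (Fin d → Fin n) → ℚ, IsHodge q κ.φ₀' φ f' ∧ IsConjugate κ.σ q C₀ κ.C₀' P f f' ∧
      IsEtaleConjugate κ.χ q κ.S₀ S f f'

/-- The rational tensor `g` in `V^(⊗ d)` is killed by `𝔪`. -/
def Killed {d : ℕ} (𝔪 : Submodule ℂ (Matrix (Fin n) (Fin n) ℂ)) (g : (Fin d → Fin n) → ℚ) : Prop :=
  ∀ X ∈ 𝔪, ∀ v, ∑ l, ∑ a, X (v l) a * (g (Function.update v l a) : ℂ) = 0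

/-- The etale conjugations `S` and `S'` of two fibres agree on the rational tensors which are killed by `𝔪` (they are invariant
under the monodromy). -/
def SameOnInvariants {Λ : Type} [CommRing Λ] [Algebra ℚ Λ] (𝔪 : Submodule ℂ (Matrix (Fin n) (Fin n) ℂ))
    (S S' : Matrix (Fin n) (Fin n) Λ) : Prop :=
  ∀ (d : ℕ) (g : (Fin d → Fin n) → ℚ), Killed 𝔪 g → ∀ v : Fin d → Fin n,
    ∑ v' : Fin d → Fin n, (∏ l, S (v l) (v' l)) * algebraMap ℚ Λ (g v') =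
      ∑ v' : Fin d → Fin n, (∏ l, S' (v l) (v' l)) * algebraMap ℚ Λ (g v')

/-- If all Hodge classes on `V_0` and `V_c` are absolute Hodge classes then this is also true for `V_0` and `V_u` (period matrix `P`,
Hodge operator `φ`): this is true for all automorphisms `σ`, all conjugates of `V_0`, all `Λ` and all etale conjugations
`Sc` of `V_c` and `S` of `V_u` which agree on the tensors which are invariant under the monodromy. -/
def Transfers (𝔪 : Submodule ℂ (Matrix (Fin n) (Fin n) ℂ)) (C₀ φ₀ : Matrix (Fin r₀) (Fin r₀) ℂ)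
    (C φc P φ : Matrix (Fin n) (Fin n) ℂ) : Prop :=
  ∀ (Λ : Type) [CommRing Λ] [Algebra ℚ Λ] (κ : Conjugation r₀ Λ) (Sc S : Matrix (Fin n) (Fin n) Λ),
    SameOnInvariants 𝔪 Sc S → AbsolutelyHodge κ C₀ φ₀ C φc Sc → AbsolutelyHodge κ C₀ φ₀ P φ S

/-- The monodromy invariant tensors are rational sections: for all rational tensors `g` in `V^(⊗ d)` which are killed by `𝔤`
there are a polynomial `q ≠ 0` and polynomials `R` over `ℚ` with `q(x) g = Z(x)^(⊗ d) R(x)`. -/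
def RationalInvariants (Z : Matrix (Fin n) (Fin n) (PowerSeries ℚ)) (𝔤 : Submodule ℂ (Matrix (Fin n) (Fin n) ℂ)) : Prop :=
  ∀ (d : ℕ) (g : (Fin d → Fin n) → ℚ), Killed 𝔤 g →
    ∃ (q : Polynomial ℚ) (R : (Fin d → Fin n) → Polynomial ℚ), q ≠ 0 ∧
      ∀ v, (q : PowerSeries ℚ) * PowerSeries.C (g v) = ∑ v' : Fin d → Fin n, (∏ l, Z (v l) (v' l)) * (R v' : PowerSeries ℚ)

/-- The integer `t` is exceptional: there is a Hodge operator `φ` of a mixed Hodge structure on `V_t` which splits the Hodge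
filtration, with `𝔪` as in `IsMonodromy`, such that the absolute Hodge conjecture does not transfer from `V_c` to `V_t`. -/
def Exceptional (𝔪 : Submodule ℂ (Matrix (Fin n) (Fin n) ℂ)) (W : ℤ → Submodule ℂ (Fin n → ℂ))
    (C₀ φ₀ : Matrix (Fin r₀) (Fin r₀) ℂ) (C φc : Matrix (Fin n) (Fin n) ℂ) (Z : Matrix (Fin n) (Fin n) (PowerSeries ℚ))
    (lev : Fin n → ℤ) (t : ℕ) : Prop :=
  IsUnit (C * valueAt Z (1 / (t : ℝ))) ∧ ∃ φ, Splits lev (C * valueAt Z (1 / (t : ℝ))) φ ∧ IsMonodromy 𝔪 𝔪 W φc φ ∧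
    ¬ Transfers 𝔪 C₀ φ₀ C φc (C * valueAt Z (1 / (t : ℝ))) φ

end absolute

section conclusion
variable {n N r₀ : ℕ}

/-- The sum of the codimensions of the special subvarieties through the points `t_1, …, t_N` is at most `r`: for all subspaces
`𝔪_j` of `𝔤'` and all rational Lie algebras `𝔥_j` which contain the Hodge operator `φ₀ ⊕ φ_j` of `V_0 ⊕ V_j` we have
`∑ (dim 𝔪_j^- - dim (𝔪_j^- ∩ 𝔥_j)) ≤ r`. Here `𝔪_j^-` is the part of negative degree for `φ_j`. -/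
def SumOfCodimensions (r : ℕ) (𝔤' : Submodule ℂ (Matrix (Fin n) (Fin n) ℂ)) (lev₀ : Fin r₀ → ℤ) (lev : Fin n → ℤ)
    (C₀ : Matrix (Fin r₀) (Fin r₀) ℂ) (P : Fin N → Matrix (Fin n) (Fin n) ℂ) : Prop :=
  ∀ (φ₀ : Matrix (Fin r₀) (Fin r₀) ℂ) (φ : Fin N → Matrix (Fin n) (Fin n) ℂ)
    (𝔪 : Fin N → Submodule ℂ (Matrix (Fin n) (Fin n) ℂ))
    (𝔥 : Fin N → Submodule ℂ (Matrix (Fin r₀ ⊕ (Fin n × Fin 1)) (Fin r₀ ⊕ (Fin n × Fin 1)) ℂ)),
    Splits lev₀ C₀ φ₀ → (∀ j, Splits lev (P j) (φ j)) → (∀ j, 𝔪 j ≤ 𝔤') → (∀ j, IsRational (𝔥 j)) → (∀ j, IsLie (𝔥 j)) →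
    (∀ j, total φ₀ (fun _ : Fin 1 => φ j) ∈ 𝔥 j) →
      ∑ j, Module.finrank ℂ (negative (𝔪 j) (φ j)) ≤
        ∑ j, Module.finrank ℂ (negative (𝔪 j) (φ j) ⊓ inBlock (𝔥 j) : Submodule ℂ (Matrix (Fin n) (Fin n) ℂ)) + r

/-- At most `r` of the fibres are special: for all `𝔪`, weight filtrations `W`, `φ₀` and `φc`, and for all Hodge operators `φ_j` of
mixed Hodge structures which split the Hodge filtrations, there is a set `S` of at most `r` indices such that the fibres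
with `j ∉ S` are Hodge generic. -/
def FewSpecial (r : ℕ) (𝔤' : Submodule ℂ (Matrix (Fin n) (Fin n) ℂ)) (lev₀ : Fin r₀ → ℤ) (lev : Fin n → ℤ)
    (C₀ : Matrix (Fin r₀) (Fin r₀) ℂ) (P : Fin N → Matrix (Fin n) (Fin n) ℂ) : Prop :=
  ∀ (𝔪 : Submodule ℂ (Matrix (Fin n) (Fin n) ℂ)) (W : ℤ → Submodule ℂ (Fin n → ℂ)) (φ₀ : Matrix (Fin r₀) (Fin r₀) ℂ)
    (φc : Matrix (Fin n) (Fin n) ℂ) (φ : Fin N → Matrix (Fin n) (Fin n) ℂ), Splits lev₀ C₀ φ₀ →
    (∀ j, Splits lev (P j) (φ j)) → (∀ j, IsMonodromy 𝔤' 𝔪 W φc (φ j)) →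
      ∃ S : Finset (Fin N), S.card ≤ r ∧ ∀ j ∉ S, Generic φ₀ φc (φ j) 𝔪

/-- both conclusions -/
def Conclusion (r : ℕ) (𝔤' : Submodule ℂ (Matrix (Fin n) (Fin n) ℂ)) (lev₀ : Fin r₀ → ℤ) (lev : Fin n → ℤ)
    (C₀ : Matrix (Fin r₀) (Fin r₀) ℂ) (P : Fin N → Matrix (Fin n) (Fin n) ℂ) : Prop :=
  SumOfCodimensions r 𝔤' lev₀ lev C₀ P ∧ FewSpecial r 𝔤' lev₀ lev C₀ P

/-- The integer `t` is in the Hodge locus, relative to `V_0`: there is a Hodge operator `φ` of a mixed Hodge structure on `V_t`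
which splits the Hodge filtration, such that `𝔪` is as in `IsMonodromy`, and the fibre is not Hodge generic. -/
def InHodgeLocus (C : Matrix (Fin n) (Fin n) ℂ) (M : Matrix (Fin n) (Fin n) ℚ) (Z : Matrix (Fin n) (Fin n) (PowerSeries ℚ))
    (lev : Fin n → ℤ) (𝔤' 𝔪 : Submodule ℂ (Matrix (Fin n) (Fin n) ℂ)) (W : ℤ → Submodule ℂ (Fin n → ℂ))
    (φ₀ : Matrix (Fin r₀) (Fin r₀) ℂ) (φc : Matrix (Fin n) (Fin n) ℂ) (t : ℕ) : Prop :=
  IsUnit (period C M Z t) ∧ ∃ φ, Splits lev (period C M Z t) φ ∧ IsMonodromy 𝔤' 𝔪 W φc φ ∧ ¬ Generic φ₀ φc φ 𝔪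

end conclusion

/-- the numbers `t_j` are distinct and congruent modulo `G`, and `(t_i - t_j + 2)^E ≤ t_j` -/
def InWindow (G E : ℕ) {N : ℕ} (t : Fin N → ℕ) : Prop :=
  Function.Injective t ∧ (∀ i j, t i ≡ t j [MOD G]) ∧ ∀ i j, (t i - t j + 2) ^ E ≤ t j

theorem iter_eq {r : ℕ} (T : Polynomial ℤ) (A : Fin r → Fin r → Polynomial ℤ) (s : ℕ) :
    iter T A s = Pool.Agent.Y120.GH.itm T A s := by
  induction s with
  | zero => rfl
  | succ s ih =>
    funext i j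
    rw [iter, Pool.Agent.Y120.GH.itm, ih]

theorem qu_eq {r : ℕ} {T : Polynomial ℤ} {A : Fin r → Fin r → Polynomial ℤ} (h : QuasiUnipotent T A) :
    Pool.Agent.Y120.GH.QU0 T A := by
  obtain ⟨e, M, K, Φ, he, hdet, hc, heq⟩ := h
  have he0 : e ≠ 0 := by omega
  refine ⟨e, he0, M, K, Φ, hc, fun i j n => ?_, hdet⟩
  have h1 := heq i j n
  simp only [atPow] at h1
  rw [Pool.Agent.Y120.GH.expand_poly he0]
  simp only [Pool.Agent.Y120.GH.expand_poly he0]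
  exact h1

theorem gal_eq {r : ℕ} {T : Polynomial ℤ} {A : Fin r → Fin r → Polynomial ℤ} {h : Fin r → PowerSeries ℚ}
    (hG : GFamily T A h) : ∃ C : ℝ, ∀ m, ∃ d : ℕ, 0 < d ∧ (d : ℝ) ≤ C ^ (m + 1) ∧ ∀ s ≤ m, ∀ i j, ∃ H : Polynomial ℤ,
      (d : Polynomial ℤ) * Pool.Agent.Y120.GH.itm T A s i j = (s.factorial : Polynomial ℤ) * H := by
  obtain ⟨C, hC⟩ := hG.galochkin
  refine ⟨C, fun m => ?_⟩
  obtain ⟨d, h1, h2, h3⟩ := hC m
  refine ⟨d, h1, h2, fun s hs i' j' => ?_⟩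
  rw [← iter_eq]
  exact h3 s hs i' j'

theorem map_eq {n : ℕ} (M : Matrix (Fin n) (Fin n) ℚ) : toC M = Pool.Agent.Y119.HY.cm M := by
  ext i j
  rw [Pool.Agent.Y119.HY.cm_apply]
  rfl

theorem sym_inf {n : ℕ} {Z : Matrix (Fin n) (Fin n) (PowerSeries ℚ)} {X : Matrix (Fin n) (Fin n) ℂ} (h : Symmetry Z X) :
    Pool.Agent.Helper880_R3.Inf Z X := by
  intro R hR
  refine Eq.trans ?_ (h R hR)
  unfold Pool.Agent.Helper880_R3.DX
  rw [map_sum]
  refine Finset.sum_congr rfl fun b _ => ?_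
  rw [map_mul, map_sum, Matrix.mul_apply]
  refine congrArg₂ (· * ·) rfl (Finset.sum_congr rfl fun l _ => ?_)
  rw [map_mul, MvPolynomial.aeval_C, MvPolynomial.aeval_X, Matrix.map_apply, Matrix.map_apply]
  have h1 : algebraMap (Polynomial ℂ) (PowerSeries ℂ) (Polynomial.C (X b.1 l)) = PowerSeries.C (X b.1 l) :=
    Polynomial.coe_C _
  rw [h1]
  rfl

theorem alg_mem {ι : Type} (b : ι → ℂ) (k : ι) : IsAlgebraic (IntermediateField.adjoin ℚ (Set.range b)) (b k) := by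
  have h1 : b k ∈ IntermediateField.adjoin ℚ (Set.range b) := IntermediateField.subset_adjoin ℚ _ ⟨k, rfl⟩
  exact isAlgebraic_algebraMap (⟨b k, h1⟩ : IntermediateField.adjoin ℚ (Set.range b))

theorem all_few {r n : ℕ} (C₀ : Matrix (Fin r) (Fin r) ℂ) (C : Matrix (Fin n) (Fin n) ℂ) : ∃ s, FewPeriods s C₀ C := by
  set e := Fintype.equivFin ((Fin r × Fin r) ⊕ (Fin n × Fin n)) with he
  refine ⟨Fintype.card ((Fin r × Fin r) ⊕ (Fin n × Fin n)), fun k => Sum.elim (fun p => C₀ p.1 p.2) (fun p => C p.1 p.2)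
    (e.symm k), 1, one_ne_zero, fun i j => ?_, fun i j => ?_⟩
  · have h1 := alg_mem (fun k => Sum.elim (fun p => C₀ p.1 p.2) (fun p => C p.1 p.2) (e.symm k)) (e (Sum.inl (i, j)))
    rw [one_mul]
    simpa using h1
  · have h1 := alg_mem (fun k => Sum.elim (fun p => C₀ p.1 p.2) (fun p => C p.1 p.2) (e.symm k)) (e (Sum.inr (i, j)))
    rw [one_mul]
    simpa using h1

theorem total_unit {r n N : ℕ} {C₀ : Matrix (Fin r) (Fin r) ℂ} {P : Fin N → Matrix (Fin n) (Fin n) ℂ} (h₀ : IsUnit C₀)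
    (h : ∀ j, IsUnit (P j)) : IsUnit (total C₀ P) := by
  unfold total
  rw [Matrix.isUnit_fromBlocks_zero₁₂, Matrix.isUnit_iff_isUnit_det (Matrix.blockDiagonal P), Matrix.det_blockDiagonal]
  refine ⟨h₀, ?_⟩
  rw [isUnit_iff_ne_zero, Finset.prod_ne_zero_iff]
  intro j _
  exact ((Matrix.isUnit_iff_isUnit_det _).1 (h j)).ne_zero

theorem rat_eq {B : Type} {W : Submodule ℂ (Matrix B B ℂ)} :
    IsRational W ↔ Pool.Agent.Helper880_ZP.DefOver Pool.Agent.Helper880_ZP.K₀ W := by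
  have h : {X | X ∈ W ∧ ∀ a b, ∃ q : ℚ, X a b = q} = {X | X ∈ W ∧ ∀ a b, X a b ∈ Pool.Agent.Helper880_ZP.K₀} := by
    ext X
    simp only [Pool.Agent.Helper880_ZP.mem_K₀]
  unfold IsRational Pool.Agent.Helper880_ZP.DefOver
  rw [h]
  exact ⟨fun h1 => le_antisymm h1 (Submodule.span_le.2 fun X hX => hX.1), fun h1 => h1.le⟩

theorem hodge_eq {n r₀ d₀ d : ℕ} {φ₀ : Matrix (Fin r₀) (Fin r₀) ℂ} {φ : Matrix (Fin n) (Fin n) ℂ}
    {f : (Fin d₀ → Fin r₀) → (Fin d → Fin n) → ℚ} : IsHodgeE φ₀ φ f ↔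
      ∃ q : ℤ, Pool.Agent.Helper880_HC.act (fun _ : Fin d => (0 : Fin 1)) φ₀ (fun _ => φ) (Pool.Agent.Helper880_HC.tC f) =
        (q : ℂ) • Pool.Agent.Helper880_HC.tC f := by
  constructor
  · rintro ⟨q, hq⟩
    refine ⟨q, ?_⟩
    funext x y
    rw [Pool.Agent.Helper880_HC.act_apply]
    exact hq x y
  · rintro ⟨q, hq⟩
    refine ⟨q, fun x y => ?_⟩
    have h1 := congrFun (congrFun hq x) y
    rw [Pool.Agent.Helper880_HC.act_apply] at h1
    exact h1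

theorem inv_eq {n r₀ d₀ d : ℕ} {𝔪 : Submodule ℂ (Matrix (Fin n) (Fin n) ℂ)} {f : (Fin d₀ → Fin r₀) → (Fin d → Fin n) → ℚ} :
    Invariant 𝔪 f ↔ ∀ j, ∀ X ∈ 𝔪,
      Pool.Agent.Helper880_HC.one (fun _ : Fin d => (0 : Fin 1)) (Pool.Agent.Helper880_HC.tC f) j X = 0 := by
  constructor
  · intro h j X hX
    funext x y
    rw [Pool.Agent.Helper880_HC.one_sum, Subsingleton.elim j 0]
    simp only [if_true]
    exact h X hX x y
  · intro h X hX x y
    have h1 := congrFun (congrFun (h 0 X hX) x) y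
    rw [Pool.Agent.Helper880_HC.one_sum] at h1
    simp only [if_true] at h1
    exact h1

theorem mxd_of {n : ℕ} {W : ℤ → Submodule ℂ (Fin n → ℂ)} {φ : Matrix (Fin n) (Fin n) ℂ} (h : IsMixed W φ) :
    Pool.Agent.Helper880_MX.Mxd W φ :=
  ⟨h.mono, h.bot, h.top, h.rational, h.stable, h.symmetric⟩

theorem ntq_of {n : ℕ} {𝔪 : Submodule ℂ (Matrix (Fin n) (Fin n) ℂ)} {φ : Matrix (Fin n) (Fin n) ℂ}
    (h : NoTrivialQuotient 𝔪 φ) : Pool.Agent.Helper880_MX.NTQ 𝔪 φ :=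
  fun 𝔦 h1 h2 h3 h4 => (h 𝔦 h1 (rat_eq.2 h2) h3 h4).ge

theorem block_eq {n r₀ : ℕ} (𝔥 : Submodule ℂ (Matrix (Fin r₀ ⊕ (Fin n × Fin 1)) (Fin r₀ ⊕ (Fin n × Fin 1)) ℂ)) :
    inBlock 𝔥 = 𝔥.comap (Pool.Agent.Helper880_R3.ib (r₀ := r₀) (0 : Fin 1)) := by
  ext X
  rw [Submodule.mem_comap, Pool.Agent.Helper880_MX.ib_zero]
  exact Iff.rfl

/-- a fibre which is not generic has a small Lie algebra -/
theorem not_generic {n r₀ : ℕ} {𝔤' 𝔪 : Submodule ℂ (Matrix (Fin n) (Fin n) ℂ)} {W : ℤ → Submodule ℂ (Fin n → ℂ)}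
    {φ₀ : Matrix (Fin r₀) (Fin r₀) ℂ} {φc φ : Matrix (Fin n) (Fin n) ℂ} (h : IsMonodromy 𝔤' 𝔪 W φc φ)
    (hg : ¬ Generic φ₀ φc φ 𝔪) : ∃ 𝔥 : Submodule ℂ (Matrix (Fin r₀ ⊕ (Fin n × Fin 1)) (Fin r₀ ⊕ (Fin n × Fin 1)) ℂ),
      IsRational 𝔥 ∧ IsLie 𝔥 ∧ total φ₀ (fun _ : Fin 1 => φ) ∈ 𝔥 ∧ ¬ 𝔪 ≤ inBlock 𝔥 := by
  by_contra hcon
  refine hg ⟨fun 𝔥 h1 h2 h3 => ?_, fun d₀ d f => ?_⟩
  · by_contra h4
    exact hcon ⟨𝔥, h1, h2, h3, h4⟩
  · have h5 : 𝔪 ≤ inBlock (Pool.Agent.Helper880_EX.mtB φ₀ (fun _ : Fin 1 => φ)) := by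
      by_contra h4
      exact hcon ⟨_, rat_eq.2 Pool.Agent.Helper880_EX.mtB_rat, Pool.Agent.Helper880_EX.mtB_lie,
        Pool.Agent.Helper880_EX.mtB_phi, h4⟩
    rw [hodge_eq, hodge_eq, inv_eq]
    refine Pool.Agent.Helper880_MX.hodgeM h.lie (rat_eq.1 h.rational) h.normal (ntq_of h.nontrivial) (fun X hX => ?_) h.constant
    have h6 := h5 hX
    rw [block_eq] at h6
    exact h6

/-- the codimension of a small Lie algebra is not zero -/
theorem codim_pos {n r₀ : ℕ} {lev : Fin n → ℤ} {Q : Matrix (Fin n) (Fin n) ℂ} {𝔤' 𝔪 : Submodule ℂ (Matrix (Fin n) (Fin n) ℂ)}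
    {W : ℤ → Submodule ℂ (Fin n → ℂ)} {φ₀ : Matrix (Fin r₀) (Fin r₀) ℂ} {φc φ : Matrix (Fin n) (Fin n) ℂ}
    (hE : Pool.Agent.Helper880_ZP.Eig lev Q φ) (h : IsMonodromy 𝔤' 𝔪 W φc φ)
    {𝔥 : Submodule ℂ (Matrix (Fin r₀ ⊕ (Fin n × Fin 1)) (Fin r₀ ⊕ (Fin n × Fin 1)) ℂ)} (h1 : IsRational 𝔥) (h2 : IsLie 𝔥)
    (h3 : total φ₀ (fun _ : Fin 1 => φ) ∈ 𝔥) (h4 : ¬ 𝔪 ≤ inBlock 𝔥) :
    Module.finrank ℂ (negative 𝔪 φ ⊓ inBlock 𝔥 : Submodule ℂ (Matrix (Fin n) (Fin n) ℂ)) + 1 ≤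
      Module.finrank ℂ (negative 𝔪 φ) := by
  by_contra hcon
  have h6 : Module.finrank ℂ (negative 𝔪 φ ⊓ inBlock 𝔥 : Submodule ℂ (Matrix (Fin n) (Fin n) ℂ)) ≤
      Module.finrank ℂ (negative 𝔪 φ) := Submodule.finrank_mono inf_le_left
  have h7 : negative 𝔪 φ ⊓ inBlock 𝔥 = negative 𝔪 φ := Submodule.eq_of_le_of_finrank_le inf_le_left (by omega)
  have h8 : negative 𝔪 φ ≤ inBlock 𝔥 := by
    rw [← h7]
    exact inf_le_right
  obtain ⟨k1, k2, k3⟩ := Pool.Agent.Helper880_MX.cut (φ₀ := φ₀) h.lie (rat_eq.1 h.rational) h.normal h2 (rat_eq.1 h1) h3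
  have h9 := Pool.Agent.Helper880_MX.full hE (mxd_of h.mixed) (rat_eq.1 h.rational) h.lie h.normal h.weight (ntq_of h.nontrivial)
    (𝔫 := 𝔪 ⊓ 𝔥.comap (Pool.Agent.Helper880_R3.ib (r₀ := r₀) (0 : Fin 1))) inf_le_left k1 k2 k3
    (le_inf (Pool.Agent.Helper880_EX.ngS_le _ _) (by rw [← block_eq]; exact h8))
  refine h4 (h9.trans ?_)
  rw [block_eq]
  exact inf_le_right

theorem concl {n N r₀ r : ℕ} {𝔤 : Submodule ℂ (Matrix (Fin n) (Fin n) ℂ)} {lev₀ : Fin r₀ → ℤ} {lev : Fin n → ℤ}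
    {C₀ : Matrix (Fin r₀) (Fin r₀) ℂ} {C : Matrix (Fin n) (Fin n) ℂ} {P : Fin N → Matrix (Fin n) (Fin n) ℂ}
    (hu : IsUnit (total C₀ P))
    (h : ∀ 𝔥 : Submodule ℂ (Matrix (Fin r₀ ⊕ (Fin n × Fin N)) (Fin r₀ ⊕ (Fin n × Fin N)) ℂ),
      Pool.Agent.Helper880_ZP.DefOver Pool.Agent.Helper880_ZP.K₀ 𝔥 → Pool.Agent.Helper880_ZP.Lie' 𝔥 →
      (∃ φ ∈ 𝔥, ∃ V ∈ Pool.Agent.Helper880_ZP.upS ℂ (Pool.Agent.Helper880_ZP.Lv N lev₀ lev),
        φ * (total C₀ P * (1 + V)) = total C₀ P * (1 + V) * Pool.Agent.Helper880_ZP.Dg ℂ (Pool.Agent.Helper880_ZP.Lv N lev₀ lev)) →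
      Module.finrank ℂ (Pool.Agent.Helper880_ZP.blS r₀ N (Pool.Agent.Helper880_ZP.cgS C 𝔤)) ≤
        Module.finrank ℂ (Pool.Agent.Helper880_ZP.blS r₀ N (Pool.Agent.Helper880_ZP.cgS C 𝔤) ⊓
          (𝔥 ⊔ Pool.Agent.Helper880_ZP.cjS (total C₀ P)
            (Pool.Agent.Helper880_ZP.ppS ℂ (Pool.Agent.Helper880_ZP.Lv N lev₀ lev))) : Submodule ℂ _) + r) :
    Conclusion r (conjugate C 𝔤) lev₀ lev C₀ P := by
  have hsum : SumOfCodimensions r (conjugate C 𝔤) lev₀ lev C₀ P := by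
    intro φ₀ φ 𝔪 𝔥 h0 hsp hm hr hL hφ
    have hr' : ∀ j, Pool.Agent.Helper880_ZP.DefOver Pool.Agent.Helper880_ZP.K₀ (𝔥 j) := fun j => rat_eq.1 (hr j)
    have hL' : ∀ j, Pool.Agent.Helper880_ZP.Lie' (𝔥 j) := hL
    obtain ⟨⟨V, hV, hVe⟩, hblk⟩ := Pool.Agent.Helper880_ZP.blk hu h0 hsp
    have hud := (Matrix.isUnit_iff_isUnit_det _).1 hu
    obtain ⟨hEig, hcj⟩ := Pool.Agent.Helper880_ZP.Eig.mk' hud hV hVe
    have hc1 := h (Pool.Agent.Helper880_EX.prH 𝔥) (Pool.Agent.Helper880_EX.prH_rat hr') (Pool.Agent.Helper880_EX.prH_lie hL')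
      ⟨_, ⟨φ₀, φ, rfl, hφ⟩, V, hV, hVe⟩
    have hc2 : Module.finrank ℂ (Pool.Agent.Helper880_ZP.blS r₀ N (Pool.Agent.Helper880_ZP.cgS C 𝔤)) ≤
        Module.finrank ℂ (Pool.Agent.Helper880_ZP.blS r₀ N (Pool.Agent.Helper880_ZP.cgS C 𝔤) ⊓
          (Pool.Agent.Helper880_EX.prH 𝔥 ⊔ Pool.Agent.Helper880_ZP.cjS (total C₀ P * (1 + V))
            (Pool.Agent.Helper880_ZP.ppS ℂ (Pool.Agent.Helper880_ZP.Lv N lev₀ lev))) : Submodule ℂ _) + r := by
      rw [hcj]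
      exact hc1
    have h1 := Pool.Agent.Helper880_MX.sum_cod (𝔪 := 𝔪)
      (𝔊 := Pool.Agent.Helper880_ZP.blS r₀ N (Pool.Agent.Helper880_ZP.cgS C 𝔤)) hEig hL' hφ
      (fun Z hZ => ⟨Z, fun j => hm j (hZ j), rfl⟩) hc2
    have h2 : ∀ j, inBlock (𝔥 j) = (𝔥 j).comap (Pool.Agent.Helper880_R3.ib (r₀ := r₀) (0 : Fin 1)) := fun j => block_eq _
    refine h1.trans (le_of_eq ?_)
    congr 1
    refine Finset.sum_congr rfl fun j _ => ?_
    rw [h2]
    rfl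
  refine ⟨hsum, fun 𝔪 W φ₀ φc φ h0 hsp hmon => ?_⟩
  classical
  obtain ⟨-, hblk⟩ := Pool.Agent.Helper880_ZP.blk hu h0 hsp
  set S : Finset (Fin N) := Finset.univ.filter fun j => ¬ Generic φ₀ φc (φ j) 𝔪 with hS
  have hex : ∀ j, ∃ 𝔥 : Submodule ℂ (Matrix (Fin r₀ ⊕ (Fin n × Fin 1)) (Fin r₀ ⊕ (Fin n × Fin 1)) ℂ),
      IsRational 𝔥 ∧ IsLie 𝔥 ∧ total φ₀ (fun _ : Fin 1 => φ j) ∈ 𝔥 ∧ (j ∈ S → ¬ 𝔪 ≤ inBlock 𝔥) := by
    intro j
    by_cases hj : j ∈ S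
    · obtain ⟨𝔥, h1, h2, h3, h4⟩ := not_generic (hmon j) (Finset.mem_filter.1 hj).2
      exact ⟨𝔥, h1, h2, h3, fun _ => h4⟩
    · refine ⟨⊤, rat_eq.2 (Pool.Agent.Helper880_EX.rat_of fun μ Y _ => Submodule.mem_top), fun X _ Y _ => Submodule.mem_top,
        Submodule.mem_top, fun h => absurd h hj⟩
  choose 𝔥 h1 h2 h3 h4 using hex
  have h5 := hsum φ₀ φ (fun _ => 𝔪) 𝔥 h0 hsp (fun j => (hmon j).le) h1 h2 h3
  have h6 : ∀ j, Module.finrank ℂ (negative 𝔪 (φ j) ⊓ inBlock (𝔥 j) : Submodule ℂ (Matrix (Fin n) (Fin n) ℂ)) +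
      (if j ∈ S then 1 else 0) ≤ Module.finrank ℂ (negative 𝔪 (φ j)) := by
    intro j
    by_cases hj : j ∈ S
    · rw [if_pos hj]
      obtain ⟨R, hR⟩ := hblk j
      exact codim_pos hR (hmon j) (h1 j) (h2 j) (h3 j) (h4 j hj)
    · rw [if_neg hj, add_zero]
      exact Submodule.finrank_mono inf_le_left
  have h7 := Finset.sum_le_sum fun (j : Fin N) (_ : j ∈ Finset.univ) => h6 j
  rw [Finset.sum_add_distrib, Finset.sum_ite_mem, Finset.univ_inter, Finset.sum_const, smul_eq_mul, mul_one] at h7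
  refine ⟨S, ?_, fun j hj => ?_⟩
  · omega
  · by_contra hg
    exact hj (Finset.mem_filter.2 ⟨Finset.mem_univ _, hg⟩)

theorem per_eq {n : ℕ} (C : Matrix (Fin n) (Fin n) ℂ) (M : Matrix (Fin n) (Fin n) ℚ) (Z : Matrix (Fin n) (Fin n) (PowerSeries ℚ))
    (t : ℕ) : period C M Z t = C * (NormedSpace.exp ((-((Real.log (t : ℝ) : ℝ) : ℂ)) • Pool.Agent.Y119.HY.cm M) *
      Pool.Agent.Y118.HV.Hv Z t) := by
  unfold period
  rw [map_eq]
  rfl

theorem windows (n : ℕ) (hn : 0 < n) (T : Polynomial ℤ) (A : Fin (n * n) → Fin (n * n) → Polynomial ℤ)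
    (Z : Matrix (Fin n) (Fin n) (PowerSeries ℚ)) (hG : GFamily T A (entries Z)) (M : Matrix (Fin n) (Fin n) ℚ)
    (hM : M ^ n = 0) (𝔤 : Submodule ℂ (Matrix (Fin n) (Fin n) ℂ)) (hI : ∀ X ∈ 𝔤, Symmetry Z X)
    (hM𝔤 : ∀ X ∈ 𝔤, toC M * X - X * toC M ∈ 𝔤) :
    ∃ G : ℕ, 1 ≤ G ∧ ∀ (N r₀ s r : ℕ) (C₀ : Matrix (Fin r₀) (Fin r₀) ℂ) (C : Matrix (Fin n) (Fin n) ℂ)
      (lev₀ : Fin r₀ → ℤ) (lev : Fin n → ℤ), 0 < N → FewPeriods s C₀ C → s + (if M = 0 then 0 else 1) ≤ r →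
      ∃ E : ℕ, ∀ t : Fin N → ℕ, InWindow G E t → IsUnit (total C₀ fun j => period C M Z (t j)) →
        Conclusion r (conjugate C 𝔤) lev₀ lev C₀ fun j => period C M Z (t j) := by
  obtain ⟨q', C', hG'⟩ := Pool.Agent.Y120.GH.gsys_of hG.ode hG.size hG.den (gal_eq hG)
  rw [map_eq] at hM𝔤
  obtain ⟨G, hG1, h⟩ := Pool.Agent.Helper880_ZP.two hn hG.T_ne hG.ode hG' (qu_eq hG.regular)
    (fun X hX => sym_inf (hI X hX)) hM hM𝔤
  refine ⟨G, hG1, fun N r₀ s r C₀ C lev₀ lev hN hfew hs => ?_⟩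
  obtain ⟨E, hE⟩ := h N 1 r₀ s r C₀ C lev₀ lev hN hfew hs
  exact ⟨E, fun t ht hu => concl hu fun 𝔥 h1 h2 h3 =>
    (hE t ht.1 ht.2.1 ht.2.2 (fun j => period C M Z (t j)) (funext fun j => per_eq _ _ _ _) hu 𝔥 h1).2 h2 h3⟩

theorem value_sc {n : ℕ} (Z : Matrix (Fin n) (Fin n) (PowerSeries ℚ)) (g : ℤ) (t : ℕ) :
    Pool.Agent.Y118.HV.Hv (Pool.Agent.Helper880_UN.scZ g Z) t = valueAt Z ((g : ℝ) / t) := by
  ext i j
  show ((∑' k : ℕ, ((coeff k (rescale (g : ℚ) (Z i j)) : ℚ) : ℝ) * (1 / (t : ℝ)) ^ k : ℝ) : ℂ) =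
    ((∑' k : ℕ, ((coeff k (Z i j) : ℚ) : ℝ) * ((g : ℝ) / t) ^ k : ℝ) : ℂ)
  congr 2
  funext k
  rw [coeff_rescale]
  push_cast
  rw [div_pow, div_pow, one_pow]
  ring

theorem rational (n : ℕ) (hn : 0 < n) (T : Polynomial ℤ) (A : Fin (n * n) → Fin (n * n) → Polynomial ℤ)
    (Z : Matrix (Fin n) (Fin n) (PowerSeries ℚ)) (hG : GFamily T A (entries Z)) (M : Matrix (Fin n) (Fin n) ℚ)
    (hM : M ^ n = 0) (𝔤 : Submodule ℂ (Matrix (Fin n) (Fin n) ℂ)) (hI : ∀ X ∈ 𝔤, Symmetry Z X)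
    (hM𝔤 : ∀ X ∈ 𝔤, toC M * X - X * toC M ∈ 𝔤) (r₀ s r : ℕ) (C₀ : Matrix (Fin r₀) (Fin r₀) ℂ) (C : Matrix (Fin n) (Fin n) ℂ)
    (lev₀ : Fin r₀ → ℤ) (lev : Fin n → ℤ) (hfew : FewPeriods s C₀ C) (hs : s + (if M = 0 then 0 else 1) ≤ r) :
    ∃ E : ℕ, ∀ (g : ℤ) (t : ℕ), g ≠ 0 → (g.natAbs + 2) ^ E ≤ t → ∀ L : ℂ,
      IsUnit (total C₀ fun _ : Fin 1 => periodAt C M L Z ((g : ℝ) / t)) →
      Conclusion r (conjugate C 𝔤) lev₀ lev C₀ fun _ : Fin 1 => periodAt C M L Z ((g : ℝ) / t) := by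
  obtain ⟨q', C', hG'⟩ := Pool.Agent.Y120.GH.gsys_of hG.ode hG.size hG.den (gal_eq hG)
  rw [map_eq] at hM𝔤
  obtain ⟨E, hE⟩ := Pool.Agent.Helper880_UN.two_uni (N := 1) hn (Pool.Agent.Helper880_UN.uf_scZ hG.T_ne hG')
    (fun g X hX => by
      have h1 : X = fun _ => X 0 := funext fun j => by rw [Subsingleton.elim j 0]
      rw [h1]
      exact Pool.Agent.Helper880_UN.infJ_sc (sym_inf (hI _ (hX 0))) g.2) hM hM𝔤 1 r₀ s r C₀ C lev₀ lev hfew hs
  refine ⟨E, fun g t hg ht L hu => concl hu fun 𝔥 h1 h2 h3 =>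
    (hE ⟨g, hg⟩ t ht L (fun _ => periodAt C M L Z ((g : ℝ) / t)) ?_ hu 𝔥 h1).2 h2 h3⟩
  funext j
  unfold periodAt
  rw [map_eq, value_sc]

theorem count (n : ℕ) (hn : 0 < n) (T : Polynomial ℤ) (A : Fin (n * n) → Fin (n * n) → Polynomial ℤ)
    (Z : Matrix (Fin n) (Fin n) (PowerSeries ℚ)) (hG : GFamily T A (entries Z)) (M : Matrix (Fin n) (Fin n) ℚ)
    (hM : M ^ n = 0) (𝔤 : Submodule ℂ (Matrix (Fin n) (Fin n) ℂ)) (hI : ∀ X ∈ 𝔤, Symmetry Z X)
    (hM𝔤 : ∀ X ∈ 𝔤, toC M * X - X * toC M ∈ 𝔤) (r₀ : ℕ) (C₀ : Matrix (Fin r₀) (Fin r₀) ℂ) (C : Matrix (Fin n) (Fin n) ℂ)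
    (lev₀ : Fin r₀ → ℤ) (lev : Fin n → ℤ) (hC₀ : IsUnit C₀) :
    ∃ K δ : ℝ, 0 < δ ∧ ∀ (𝔪 : Submodule ℂ (Matrix (Fin n) (Fin n) ℂ)) (W : ℤ → Submodule ℂ (Fin n → ℂ))
        (φ₀ : Matrix (Fin r₀) (Fin r₀) ℂ) (φc : Matrix (Fin n) (Fin n) ℂ), Splits lev₀ C₀ φ₀ → ∀ x : ℕ, 1 ≤ x →
          (({t | InHodgeLocus C M Z lev (conjugate C 𝔤) 𝔪 W φ₀ φc t ∧ t ≤ x}.ncard : ℕ) : ℝ) ≤ K * (x : ℝ) ^ (1 - δ) := by
  have hw := windows n hn T A Z hG M hM 𝔤 hI hM𝔤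
  obtain ⟨G, hG1, h⟩ := hw
  obtain ⟨s, hs⟩ := all_few C₀ C
  set r := s + (if M = 0 then 0 else 1) with hr
  obtain ⟨E, hE⟩ := h (r + 1) r₀ s r C₀ C lev₀ lev (Nat.succ_pos r) hs le_rfl
  obtain ⟨K, δ, hδ, hK⟩ := Pool.Agent.Helper880_AJ.count_win (G := G) (E := E) (N := r + 1) (by omega) (Nat.succ_pos r)
  refine ⟨K, δ, hδ, fun 𝔪 W φ₀ φc h0 x hx => ?_⟩
  refine hK {t | InHodgeLocus C M Z lev (conjugate C 𝔤) 𝔪 W φ₀ φc t} ?_ x hx
  intro t ht1 ht2 ht3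
  by_contra hcon
  simp only [not_exists, not_not] at hcon
  choose hu φ hφ hmon hgen using hcon
  obtain ⟨S, hS, hS'⟩ := (hE t ⟨ht1, ht2, ht3⟩ (total_unit hC₀ hu)).2 𝔪 W φ₀ φc φ h0 hφ hmon
  obtain ⟨j, hj⟩ : ∃ j, j ∉ S := by
    by_contra hc
    simp only [not_exists, not_not] at hc
    have h1 : S = Finset.univ := Finset.eq_univ_of_forall hc
    rw [h1, Finset.card_univ, Fintype.card_fin] at hS
    omega
  exact hgen j (hS' j hj)

/-! ### absolute Hodge classes -/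

open Pool.Agent.Helper880_HC (Ten act act_apply tC one) in
open Pool.Agent.Helper880_AH in
theorem transfer {n r₀ : ℕ} {Z : Matrix (Fin n) (Fin n) (PowerSeries ℚ)} {𝔤 : Submodule ℂ (Matrix (Fin n) (Fin n) ℂ)}
    (hr : IsRational 𝔤) (hRI : RationalInvariants Z 𝔤) {u₀ : ℚ}
    (hc : ∀ a b, Pool.Agent.Helper880_R3.Cc (u₀ : ℝ) (cx (Z a b)))
    {C₀ φ₀ : Matrix (Fin r₀) (Fin r₀) ℂ} {C φc φ : Matrix (Fin n) (Fin n) ℂ} (hC₀ : IsUnit C₀)
    (hP : IsUnit (C * valueAt Z (u₀ : ℝ))) (hd : φ - φc ∈ conjugate C 𝔤)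
    (hk : ∀ (d₀ d : ℕ) (f : (Fin d₀ → Fin r₀) → (Fin d → Fin n) → ℚ), IsHodgeE φ₀ φ f → Invariant (conjugate C 𝔤) f) :
    Transfers (conjugate C 𝔤) C₀ φ₀ C φc (C * valueAt Z (u₀ : ℝ)) φ := by
  have hr' := rat_eq.1 hr
  set Zt := valueAt Z (u₀ : ℝ) with hZt
  have hdet := (Matrix.isUnit_iff_isUnit_det _).1 hP
  rw [Matrix.det_mul] at hdet
  have hCd : IsUnit C.det := isUnit_of_mul_isUnit_left hdet
  have hZd : IsUnit Zt.det := isUnit_of_mul_isUnit_right hdet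
  have hC₀d := (Matrix.isUnit_iff_isUnit_det _).1 hC₀
  have hval : ∀ a b, Zt a b = Pool.Agent.Helper880_R3.ec (u₀ : ℝ) (cx (Z a b)) := by
    intro a b
    show ((∑' k : ℕ, ((coeff k (Z a b) : ℚ) : ℝ) * (u₀ : ℝ) ^ k : ℝ) : ℂ) = _
    unfold Pool.Agent.Helper880_R3.ec
    rw [Complex.ofReal_tsum]
    refine tsum_congr fun m => ?_
    rw [cx, PowerSeries.coeff_map, eq_ratCast]
    push_cast
    rfl
  intro Λ _ _ κ' Sc S hS hah d₀ d q f hf
  have hfN : IsHodgeE φ₀ φ f := ⟨q, hf⟩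
  have hinv' := hk d₀ d f hfN
  have hinv := hinv'
  rw [inv_eq] at hinv
  have hla : ∀ X ∈ conjugate C 𝔤, la X (tC f) = 0 := fun X hX => by
    rw [← one_la]
    exact hinv 0 X hX
  -- Hodge classes for `φ` and `φc`
  have hop : ∀ (x₀ : Matrix (Fin r₀) (Fin r₀) ℂ) (g : Ten ℚ d₀ d r₀ n), la (φ - φc) (tC g) = 0 → ∀ x y,
      ∑ l, ∑ a, φ (y l) a * (g x (Function.update y l a) : ℂ) = ∑ l, ∑ a, φc (y l) a * (g x (Function.update y l a) : ℂ) := by
    intro x₀ g hg x y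
    have h1 := congrFun (congrFun hg x) y
    rw [la_apply] at h1
    have h2 : ∑ l, ∑ a, (φ - φc) (y l) a * tC g x (Function.update y l a) =
        ∑ l, ∑ a, φ (y l) a * (g x (Function.update y l a) : ℂ) - ∑ l, ∑ a, φc (y l) a * (g x (Function.update y l a) : ℂ) := by
      rw [← Finset.sum_sub_distrib]
      refine Finset.sum_congr rfl fun l _ => ?_
      rw [← Finset.sum_sub_distrib]
      refine Finset.sum_congr rfl fun a _ => ?_
      rw [Matrix.sub_apply, sub_mul]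
      rfl
    rw [h2] at h1
    exact sub_eq_zero.1 h1
  have hfc : IsHodge q φ₀ φc f := by
    intro x y
    rw [← hop 0 f (hla _ hd) x y]
    exact hf x y
  obtain ⟨f', hf', ⟨w, hw, hw'⟩, het⟩ := hah d₀ d q f hfc
  set σ := κ'.σ with hσ
  set C₀' := κ'.C₀' with hC₀'
  set φ₀' := κ'.φ₀' with hφ₀' 
  set κ : ℂ := (2 * Real.pi * Complex.I : ℂ) ^ q with hκ
  have e1 : tC f = gp C₀ C w := by
    funext x y
    exact hw x y
  have e2 : tC f' = gp C₀' C (cw σ κ w) := by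
    funext x y
    exact hw' x y
  -- `w` is invariant
  have hconj : ∀ X : Matrix (Fin n) (Fin n) ℂ, C⁻¹ * (C * X * C⁻¹) * C = X := by
    intro X
    rw [← Matrix.mul_assoc, ← Matrix.mul_assoc, Matrix.nonsing_inv_mul _ hCd, Matrix.one_mul, Matrix.mul_assoc,
      Matrix.nonsing_inv_mul _ hCd, Matrix.mul_one]
  have hwk : ∀ X ∈ 𝔤, la X w = 0 := by
    intro X hX
    have h1 := hla (C * X * C⁻¹) ⟨X, hX, rfl⟩
    rw [e1, la_gp C₀ hCd, hconj] at h1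
    have h2 := gp_mul C₀⁻¹ C₀ C⁻¹ C (la X w)
    rw [h1, gp_zero, Matrix.nonsing_inv_mul _ hCd, Matrix.nonsing_inv_mul _ hC₀d, gp_one] at h2
    exact h2
  obtain ⟨wt, hwt, hwt'⟩ := conj_inv hr' (fun g hg => ri_eval (r₀ := r₀) hRI hc hval hZd g hg) hwk
  refine ⟨f', ?_, ⟨wt, fun x y => ?_, fun x y => ?_⟩, fun x y => ?_⟩
  · -- the conjugate is a Hodge class
    have h1 : la (φ - φc) (tC f') = 0 := by
      obtain ⟨X, hX, he⟩ := hd
      rw [he, e2, la_gp C₀' hCd, hconj, cw_kill hr' hwk σ κ X hX, gp_zero]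
    intro x y
    rw [hop 0 f' h1 x y]
    exact hf' x y
  · have h1 : gp C₀ (C * Zt) wt = tC f := by
      have h2 := gp_mul C₀ 1 C Zt wt
      rw [Matrix.mul_one] at h2
      rw [h2, hwt, e1]
    exact (congrFun (congrFun h1 x) y).symm
  · have h1 : gp C₀' (C * Zt) (cw σ κ wt) = tC f' := by
      have h2 := gp_mul C₀' 1 C Zt (cw σ κ wt)
      rw [Matrix.mul_one] at h2
      rw [h2, hwt' σ κ, e2]
    exact (congrFun (congrFun h1 x) y).symm
  · -- the etale conjugate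
    rw [het x y]
    refine congrArg _ (Finset.sum_congr rfl fun x' _ => ?_)
    have h1 := hS d (fun y' => f x' y') (fun X hX v => hinv' X hX x' v) y
    have h2 : ∀ S' : Matrix (Fin n) (Fin n) Λ, ∑ y' : Fin d → Fin n, (∏ k, κ'.S₀ (x k) (x' k)) * (∏ l, S' (y l) (y' l)) *
        algebraMap ℚ Λ (f x' y') = (∏ k, κ'.S₀ (x k) (x' k)) * ∑ y' : Fin d → Fin n, (∏ l, S' (y l) (y' l)) *
          algebraMap ℚ Λ (f x' y') := by
      intro S'
      rw [Finset.mul_sum]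
      exact Finset.sum_congr rfl fun y' _ => mul_assoc _ _ _
    rw [h2, h2, h1]

/-- convergence -/
theorem conv {n : ℕ} {Z : Matrix (Fin n) (Fin n) (PowerSeries ℚ)}
    (hs : ∃ K : ℝ, ∀ i m, |((coeff m (entries Z i) : ℚ) : ℝ)| ≤ K ^ (m + 1)) :
    ∃ E : ℕ, ∀ (g : ℤ) (t : ℕ), (g.natAbs + 2) ^ E ≤ t → ∀ a b,
      Pool.Agent.Helper880_R3.Cc ((((g : ℚ) / t : ℚ)) : ℝ) (Pool.Agent.Helper880_AH.cx (Z a b)) := by
  obtain ⟨K, hK⟩ := hs
  obtain ⟨E₁, hE₁⟩ := pow_unbounded_of_one_lt (2 * max K 1) (one_lt_two : (1 : ℝ) < 2)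
  refine ⟨E₁ + 1, fun g t ht a b => ?_⟩
  have hK1 : (1 : ℝ) ≤ max K 1 := le_max_right _ _
  have hK0 : (0 : ℝ) < max K 1 := by linarith
  set u : ℝ := (((g : ℚ) / t : ℚ) : ℝ) with hu
  have hpos : 0 < (g.natAbs + 2) ^ (E₁ + 1) := by positivity
  have ht0 : (0 : ℝ) < t := by exact_mod_cast lt_of_lt_of_le hpos ht
  have hu1 : |u| ≤ ((2 : ℝ) ^ E₁)⁻¹ := by
    have h1 : |u| = (g.natAbs : ℝ) / t := by
      rw [hu]
      push_cast
      rw [abs_div, abs_of_pos ht0, Nat.cast_natAbs, Int.cast_abs]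
    rw [h1, div_le_iff₀ ht0]
    have h2 : ((g.natAbs : ℝ) + 2) ^ (E₁ + 1) ≤ t := by exact_mod_cast ht
    have h3 : (2 : ℝ) ^ E₁ * (g.natAbs : ℝ) ≤ ((g.natAbs : ℝ) + 2) ^ (E₁ + 1) := by
      rw [pow_succ]
      have h4 : (0 : ℝ) ≤ (g.natAbs : ℝ) := Nat.cast_nonneg _
      refine mul_le_mul (pow_le_pow_left₀ (by norm_num) (by linarith) _) (by linarith) h4 (by positivity)
    have h5 : (0 : ℝ) < 2 ^ E₁ := by positivity
    rw [inv_mul_eq_div, le_div_iff₀ h5, mul_comm]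
    exact h3.trans h2
  have hr : max K 1 * |u| ≤ 1 / 2 := by
    have h5 : (0 : ℝ) < 2 ^ E₁ := by positivity
    calc max K 1 * |u| ≤ max K 1 * ((2 : ℝ) ^ E₁)⁻¹ := mul_le_mul_of_nonneg_left hu1 hK0.le
      _ ≤ 1 / 2 := by
        rw [mul_inv_le_iff₀ h5]
        linarith
  have hsum : Summable fun m : ℕ => max K 1 * (1 / 2 : ℝ) ^ m :=
    (summable_geometric_of_lt_one (by norm_num) (by norm_num)).mul_left _
  refine Summable.of_nonneg_of_le (fun m => norm_nonneg _) (fun m => ?_) hsum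
  rw [Pool.Agent.Helper880_AH.cx, PowerSeries.coeff_map, norm_mul, norm_pow, Complex.norm_real, Real.norm_eq_abs, eq_ratCast]
  have h1 : ‖((coeff m (Z a b) : ℚ) : ℂ)‖ = |((coeff m (Z a b) : ℚ) : ℝ)| := by
    have h2 : ((coeff m (Z a b) : ℚ) : ℂ) = (((coeff m (Z a b) : ℚ) : ℝ) : ℂ) := by push_cast; rfl
    rw [h2, Complex.norm_real, Real.norm_eq_abs]
  rw [h1]
  have h2 := hK (finProdFinEquiv (a, b)) m
  have h3 : entries Z (finProdFinEquiv (a, b)) = Z a b := by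
    unfold entries
    rw [Equiv.symm_apply_apply]
  rw [h3] at h2
  have h4 : |((coeff m (Z a b) : ℚ) : ℝ)| ≤ (max K 1) ^ (m + 1) := by
    refine h2.trans ?_
    rcases le_or_gt 0 K with h5 | h5
    · exact pow_le_pow_left₀ h5 (le_max_left _ _) _
    · have h6 : K ^ (m + 1) ≤ |K| ^ (m + 1) := by
        rw [← abs_pow]
        exact le_abs_self _
      have h7 := hK (finProdFinEquiv (a, b)) 0
      rw [zero_add, pow_one] at h7
      exact absurd (abs_nonneg _) (not_le.2 (lt_of_le_of_lt h7 h5))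
  calc |((coeff m (Z a b) : ℚ) : ℝ)| * |u| ^ m ≤ (max K 1) ^ (m + 1) * |u| ^ m :=
        mul_le_mul_of_nonneg_right h4 (by positivity)
    _ = max K 1 * (max K 1 * |u|) ^ m := by rw [mul_pow]; ring
    _ ≤ max K 1 * (1 / 2) ^ m := mul_le_mul_of_nonneg_left (pow_le_pow_left₀ (by positivity) hr _) hK0.le

theorem exp0 {n : ℕ} (L : ℂ) : NormedSpace.exp ((-L) • toC (0 : Matrix (Fin n) (Fin n) ℚ)) = 1 := by
  have h1 : toC (0 : Matrix (Fin n) (Fin n) ℚ) = 0 := by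
    ext i j
    show (((0 : ℚ)) : ℂ) = 0
    rw [Rat.cast_zero]
  rw [h1, smul_zero, NormedSpace.exp_zero]

theorem periodAt0 {n : ℕ} (C : Matrix (Fin n) (Fin n) ℂ) (Z : Matrix (Fin n) (Fin n) (PowerSeries ℚ)) (L : ℂ) (u : ℝ) :
    periodAt C 0 L Z u = C * valueAt Z u := by
  unfold periodAt
  rw [exp0, Matrix.one_mul]

theorem period0 {n : ℕ} (C : Matrix (Fin n) (Fin n) ℂ) (Z : Matrix (Fin n) (Fin n) (PowerSeries ℚ)) (t : ℕ) :
    period C 0 Z t = C * valueAt Z (1 / (t : ℝ)) := by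
  unfold period
  rw [exp0, Matrix.one_mul]
  rfl

/-- if all proper rational subalgebras have large codimension then the fibre is generic -/
theorem gen_of {n r₀ r c : ℕ} {𝔪 : Submodule ℂ (Matrix (Fin n) (Fin n) ℂ)} {W : ℤ → Submodule ℂ (Fin n → ℂ)}
    {lev₀ : Fin r₀ → ℤ} {lev : Fin n → ℤ} {C₀ φ₀ : Matrix (Fin r₀) (Fin r₀) ℂ} {P φc φ : Matrix (Fin n) (Fin n) ℂ}
    (hc : Conclusion r 𝔪 lev₀ lev C₀ fun _ : Fin 1 => P) (h0 : Splits lev₀ C₀ φ₀) (hφ : Splits lev P φ)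
    (hm : IsMonodromy 𝔪 𝔪 W φc φ) (hrc : r < c) (hcod : Codimension c 𝔪 φ) : Generic φ₀ φc φ 𝔪 := by
  by_contra hg
  obtain ⟨𝔥, h1, h2, h3, h4⟩ := not_generic hm hg
  have h5 := hc.1 φ₀ (fun _ => φ) (fun _ => 𝔪) (fun _ => 𝔥) h0 (fun _ => hφ) (fun _ => le_rfl) (fun _ => h1) (fun _ => h2)
    (fun _ => h3)
  simp only [Finset.univ_unique, Finset.sum_singleton] at h5
  obtain ⟨k1, k2, k3⟩ := Pool.Agent.Helper880_MX.cut (φ₀ := φ₀) hm.lie (rat_eq.1 hm.rational) hm.normal h2 (rat_eq.1 h1) h3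
  have h6 := hcod (𝔪 ⊓ 𝔥.comap (Pool.Agent.Helper880_R3.ib (r₀ := r₀) (0 : Fin 1))) inf_le_left (rat_eq.2 k1) k2 k3 (fun h => by
    refine h4 ?_
    rw [block_eq]
    rw [← h]
    exact inf_le_right)
  have h7 : negative 𝔪 φ ⊓ (𝔪 ⊓ 𝔥.comap (Pool.Agent.Helper880_R3.ib (r₀ := r₀) (0 : Fin 1))) =
      negative 𝔪 φ ⊓ inBlock 𝔥 := by
    rw [block_eq, ← inf_assoc, inf_eq_left.2 (show negative 𝔪 φ ≤ 𝔪 from Pool.Agent.Helper880_EX.ngS_le _ _)]
  rw [h7] at h6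
  omega

/-- **The theorem.** -/
theorem result (n : ℕ) (hn : 0 < n) (T : Polynomial ℤ) (A : Fin (n * n) → Fin (n * n) → Polynomial ℤ)
    (Z : Matrix (Fin n) (Fin n) (PowerSeries ℚ)) (hG : GFamily T A (entries Z))
    (𝔤 : Submodule ℂ (Matrix (Fin n) (Fin n) ℂ)) (hI : ∀ X ∈ 𝔤, Symmetry Z X) (hr : IsRational 𝔤)
    (hRI : RationalInvariants Z 𝔤) (r₀ : ℕ) (C₀ : Matrix (Fin r₀) (Fin r₀) ℂ) (C : Matrix (Fin n) (Fin n) ℂ)
    (lev₀ : Fin r₀ → ℤ) (lev : Fin n → ℤ) (hC₀ : IsUnit C₀) :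
    (∀ r : ℕ, FewPeriods r C₀ C → ∃ E : ℕ, ∀ (g : ℤ) (t : ℕ), g ≠ 0 → (g.natAbs + 2) ^ E ≤ t →
      IsUnit (C * valueAt Z ((g : ℝ) / t)) → ∀ (c : ℕ) (W : ℤ → Submodule ℂ (Fin n → ℂ)) (φ₀ : Matrix (Fin r₀) (Fin r₀) ℂ)
        (φc φ : Matrix (Fin n) (Fin n) ℂ), r < c → Splits lev₀ C₀ φ₀ → Splits lev (C * valueAt Z ((g : ℝ) / t)) φ →
          IsMonodromy (conjugate C 𝔤) (conjugate C 𝔤) W φc φ → Codimension c (conjugate C 𝔤) φ →
            Transfers (conjugate C 𝔤) C₀ φ₀ C φc (C * valueAt Z ((g : ℝ) / t)) φ) ∧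
    ∃ K δ : ℝ, 0 < δ ∧ ∀ (W : ℤ → Submodule ℂ (Fin n → ℂ)) (φ₀ : Matrix (Fin r₀) (Fin r₀) ℂ)
      (φc : Matrix (Fin n) (Fin n) ℂ), Splits lev₀ C₀ φ₀ → ∀ x : ℕ, 1 ≤ x →
        (({t | Exceptional (conjugate C 𝔤) W C₀ φ₀ C φc Z lev t ∧ t ≤ x}.ncard : ℕ) : ℝ) ≤ K * (x : ℝ) ^ (1 - δ) := by
  have hM𝔤 : ∀ X ∈ 𝔤, toC (0 : Matrix (Fin n) (Fin n) ℚ) * X - X * toC (0 : Matrix (Fin n) (Fin n) ℚ) ∈ 𝔤 := by
    intro X hX
    have h1 : toC (0 : Matrix (Fin n) (Fin n) ℚ) = 0 := by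
      ext i j
      show (((0 : ℚ)) : ℂ) = 0
      rw [Rat.cast_zero]
    rw [h1, Matrix.zero_mul, Matrix.mul_zero, sub_zero]
    exact 𝔤.zero_mem
  have hM : (0 : Matrix (Fin n) (Fin n) ℚ) ^ n = 0 := zero_pow hn.ne'
  obtain ⟨E₂, hE₂⟩ := conv hG.size
  refine ⟨fun r hfew => ?_, ?_⟩
  · obtain ⟨E₁, hE₁⟩ := rational n hn T A Z hG 0 hM 𝔤 hI hM𝔤 r₀ r r C₀ C lev₀ lev hfew (by rw [if_pos rfl, add_zero])
    refine ⟨max E₁ E₂, fun g t hg ht hu c W φ₀ φc φ hrc h0 hφ hm hcod => ?_⟩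
    have ht1 : (g.natAbs + 2) ^ E₁ ≤ t := (Nat.pow_le_pow_right (by omega) (le_max_left _ _)).trans ht
    have ht2 : (g.natAbs + 2) ^ E₂ ≤ t := (Nat.pow_le_pow_right (by omega) (le_max_right _ _)).trans ht
    have hper : (fun _ : Fin 1 => periodAt C 0 0 Z ((g : ℝ) / t)) = fun _ => C * valueAt Z ((g : ℝ) / t) := by
      funext j
      exact periodAt0 _ _ _ _
    have hfe := hE₁ g t hg ht1 0 (by
      rw [hper]
      exact total_unit hC₀ fun _ => hu)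
    rw [hper] at hfe
    have hgen := gen_of hfe h0 hφ hm hrc hcod
    have hcast : ((((g : ℚ) / t : ℚ)) : ℝ) = (g : ℝ) / t := by push_cast; rfl
    have h3 := transfer (u₀ := (g : ℚ) / t) hr hRI (hE₂ g t ht2) (φ₀ := φ₀) (C := C) (φc := φc) (φ := φ) hC₀
      (by rw [hcast]; exact hu) hm.constant fun d₀ d f hf => ((hgen.2 d₀ d f).1 hf).2
    rw [hcast] at h3
    exact h3
  · obtain ⟨K, δ, hδ, hK⟩ := count n hn T A Z hG 0 hM 𝔤 hI hM𝔤 r₀ C₀ C lev₀ lev hC₀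
    set T₀ : ℕ := 3 ^ E₂ with hT₀
    refine ⟨max K 0 + (T₀ + 1), min δ 1, lt_min hδ one_pos, fun W φ₀ φc h0 x hx => ?_⟩
    have hx1 : (1 : ℝ) ≤ x := by exact_mod_cast hx
    have hK' := hK (conjugate C 𝔤) W φ₀ φc h0 x hx
    have hsub : {t | Exceptional (conjugate C 𝔤) W C₀ φ₀ C φc Z lev t ∧ t ≤ x} ⊆
        {t | InHodgeLocus C 0 Z lev (conjugate C 𝔤) (conjugate C 𝔤) W φ₀ φc t ∧ t ≤ x} ∪
          ((Finset.range (T₀ + 1) : Finset ℕ) : Set ℕ) := by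
      rintro t ⟨⟨hu, φ, h1, h2, h3⟩, htx⟩
      by_cases htT : t ≤ T₀
      · exact Or.inr (Finset.mem_coe.2 (Finset.mem_range.2 (by omega)))
      · left
        refine ⟨?_, htx⟩
        rw [← period0] at hu h1
        refine ⟨hu, φ, h1, h2, fun hgen => h3 ?_⟩
        have hcast : ((((1 : ℤ) : ℚ) / t : ℚ) : ℝ) = 1 / (t : ℝ) := by push_cast; rfl
        have ht2 : ((1 : ℤ).natAbs + 2) ^ E₂ ≤ t := by
          have h7 : ((1 : ℤ).natAbs + 2) ^ E₂ = T₀ := by rw [hT₀]; rfl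
          omega
        have h8 := transfer (u₀ := ((1 : ℤ) : ℚ) / t) hr hRI (hE₂ 1 t ht2) (φ₀ := φ₀) (C := C) (φc := φc) (φ := φ) hC₀
          (by rw [hcast, ← period0]; exact hu) h2.constant fun d₀ d f hf => ((hgen.2 d₀ d f).1 hf).2
        rw [hcast] at h8
        exact h8
    have hfin : ({t | InHodgeLocus C 0 Z lev (conjugate C 𝔤) (conjugate C 𝔤) W φ₀ φc t ∧ t ≤ x} ∪
        ((Finset.range (T₀ + 1) : Finset ℕ) : Set ℕ)).Finite :=
      ((Set.finite_le_nat x).subset fun t ht => ht.2).union (Finset.finite_toSet _)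
    have h1 := Set.ncard_le_ncard hsub hfin
    have h2 := Set.ncard_union_le {t | InHodgeLocus C 0 Z lev (conjugate C 𝔤) (conjugate C 𝔤) W φ₀ φc t ∧ t ≤ x}
      ((Finset.range (T₀ + 1) : Finset ℕ) : Set ℕ)
    rw [Set.ncard_coe_finset, Finset.card_range] at h2
    have h3 : (({t | Exceptional (conjugate C 𝔤) W C₀ φ₀ C φc Z lev t ∧ t ≤ x}.ncard : ℕ) : ℝ) ≤
        (({t | InHodgeLocus C 0 Z lev (conjugate C 𝔤) (conjugate C 𝔤) W φ₀ φc t ∧ t ≤ x}.ncard : ℕ) : ℝ) +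
          ((T₀ : ℝ) + 1) := by exact_mod_cast h1.trans h2
    have hp : (x : ℝ) ^ (1 - δ) ≤ (x : ℝ) ^ (1 - min δ 1) :=
      Real.rpow_le_rpow_of_exponent_le hx1 (by linarith [min_le_left δ 1])
    have hp1 : (1 : ℝ) ≤ (x : ℝ) ^ (1 - min δ 1) := Real.one_le_rpow hx1 (by linarith [min_le_right δ 1])
    have hp0 : (0 : ℝ) ≤ (x : ℝ) ^ (1 - δ) := Real.rpow_nonneg (by linarith) _
    have h4 : K * (x : ℝ) ^ (1 - δ) ≤ max K 0 * (x : ℝ) ^ (1 - min δ 1) :=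
      mul_le_mul (le_max_left _ _) hp hp0 (le_max_right _ _)
    have h5 : ((T₀ : ℝ) + 1) ≤ ((T₀ : ℝ) + 1) * (x : ℝ) ^ (1 - min δ 1) := by
      have h6 : (0 : ℝ) ≤ (T₀ : ℝ) + 1 := by positivity
      nlinarith
    rw [add_mul]
    exact h3.trans (add_le_add (hK'.trans h4) h5)

end Pool.Agent.Results.MP_4e1cf2_ag.FullNotionFromOneFibre
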